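import Pool.Agent.U741.WR.Final
import Pool.Agent.K7.H15.WR.Idx

set_option autoImplicit false

/-!
# The chromatic index of wreath products
-/

namespace Pool.Agent.U741.WR

open Finset Pool.Agent.MPd14d18 Pool.Agent.X76.Wr Pool.Agent.K7.H15.WR

open Classical in
/-- **Wreath products of class 1.** -/
theorem wreath_idx (V W : Type) [Fintype V] [Fintype W] (G : SimpleGraph V) (G' : SimpleGraph W)
    (hne : G.edgeSet.Nonempty) (hG : sInf (Cols G) = G.maxDegree) :
    sInf (Cols (wreath G G')) = (wreath G G').maxDegree := by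
  obtain ⟨hd, hEC⟩ := ec_of_idx hne hG
  have hle : ∀ u, G.maxDegree * orb G' u + G'.degree u ≤ (wreath G G').maxDegree := by
    intro u
    obtain ⟨e, -⟩ := hne
    exact max_bound G G' e.out.1 u
  have hmain : EC (wreath G G').maxDegree (wreath G G') := by
    by_cases h2 : 2 ≤ G.maxDegree
    · exact main_EC hd hEC hle (Or.inl h2)
    · have h1 : G.maxDegree = 1 := by omega
      rw [h1] at hEC hle
      apply final_EC hEC
      intro u
      have := hle u
      omega
  rcases isEmpty_or_nonempty W with hW | ⟨⟨w⟩⟩
  · have h0 : 0 ∈ Cols (wreath G G') := by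
      refine ⟨fun e => (hW.false e.out.1.2).elim, fun e _ => (hW.false e.out.1.2).elim⟩
    have h1 := le_of_cols h0
    have h2 : sInf (Cols (wreath G G')) = 0 := Nat.sInf_eq_zero.2 (Or.inl h0)
    exact h2.trans (Nat.le_zero.1 h1).symm
  · refine idx_eq hmain ?_
    have h2 := hle w
    have h3 := orb_pos (G' := G') w
    nlinarith

end Pool.Agent.U741.WR
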