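import Pool.Agent.K7.H15.WR.Lift

set_option autoImplicit false

/-!
# Circulant graphs on the orbits

The vertices of each orbit are numbered from `0` to `n - 1`. Two vertices of the orbit are close if
the difference of their numbers is one of `1, …, h, n - h, …, n - 1` modulo `n`.
-/

namespace Pool.Agent.U741.WR

open Finset Pool.Agent.MPd14d18 Pool.Agent.X76.Wr Pool.Agent.K7.H15.WR

/-- the difference of `i` and `j` modulo `n` -/
def df (n i j : ℕ) : ℕ := (j + n - i) % n

/-- `i` and `j` are close modulo `n` -/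
def Close (h n i j : ℕ) : Prop := 1 ≤ df n i j ∧ (df n i j ≤ h ∨ n - h ≤ df n i j)

instance (h n i j : ℕ) : Decidable (Close h n i j) := by
  unfold Close
  infer_instance

theorem df_eq {n i j : ℕ} (hi : i < n) (hj : j < n) :
    df n i j = if i ≤ j then j - i else j + n - i := mod_aux n i j hi hj

theorem df_lt {n i j : ℕ} (hi : i < n) : df n i j < n := Nat.mod_lt _ (by omega)

theorem df_swap {n i j : ℕ} (hi : i < n) (hj : j < n) (hij : i ≠ j) :
    df n j i = n - df n i j := by
  rw [df_eq hi hj, df_eq hj hi]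
  split_ifs <;> omega

theorem df_inj {n i j k : ℕ} (hi : i < n) (hj : j < n) (hk : k < n) (h : df n i j = df n i k) :
    j = k := by
  rw [df_eq hi hj, df_eq hi hk] at h
  split_ifs at h <;> omega

theorem df_self {n i : ℕ} (hi : i < n) : df n i i = 0 := by
  rw [df_eq hi hi, if_pos le_rfl, Nat.sub_self]

theorem Close.ne {h n i j : ℕ} (hi : i < n) (hc : Close h n i j) : i ≠ j := by
  rintro rfl
  have := hc.1
  rw [df_self hi] at this
  omega

theorem Close.symm {h n i j : ℕ} (hi : i < n) (hj : j < n) (hc : Close h n i j) :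
    Close h n j i := by
  have hij := hc.ne hi
  have h1 := df_lt (n := n) (i := i) (j := j) hi
  unfold Close at hc ⊢
  rw [df_swap hi hj hij]
  omega

/-- a permutation which moves `A` to `B` -/
theorem exists_perm {α : Type*} [DecidableEq α] (A B : Finset α) (h : A.card = B.card) :
    ∃ σ : Equiv.Perm α, (∀ x ∈ A, σ x ∈ B) ∧ ∀ x, x ∉ A → x ∉ B → σ x = x := by
  induction hn : (A \ B).card generalizing A with
  | zero =>
    have h1 : A ⊆ B := by
      rw [Finset.card_eq_zero, Finset.sdiff_eq_empty_iff_subset] at hn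
      exact hn
    exact ⟨1, fun x hx => h1 hx, fun x _ _ => rfl⟩
  | succ n ih =>
    obtain ⟨a, ha⟩ : (A \ B).Nonempty := Finset.card_pos.1 (by omega)
    rw [mem_sdiff] at ha
    have h2 : (B \ A).card = (A \ B).card := by
      have h3 := Finset.card_sdiff_add_card_inter A B
      have h4 := Finset.card_sdiff_add_card_inter B A
      rw [Finset.inter_comm] at h4
      omega
    obtain ⟨b, hb⟩ : (B \ A).Nonempty := Finset.card_pos.1 (by omega)
    rw [mem_sdiff] at hb
    have hab : a ≠ b := fun h => ha.2 (h ▸ hb.1)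
    have hbA : b ∉ A.erase a := fun h => hb.2 (mem_of_mem_erase h)
    have hcard : (insert b (A.erase a)).card = B.card := by
      rw [Finset.card_insert_of_notMem hbA, Finset.card_erase_of_mem ha.1]
      have := Finset.card_pos.2 ⟨a, ha.1⟩
      omega
    obtain ⟨σ, hσ1, hσ2⟩ := ih (insert b (A.erase a)) hcard (by
      have h5 : insert b (A.erase a) \ B = (A \ B).erase a := by
        ext x
        simp only [mem_sdiff, mem_insert, mem_erase]
        constructor
        · rintro ⟨rfl | ⟨h6, h7⟩, h8⟩
          · exact absurd hb.1 h8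
          · exact ⟨h6, h7, h8⟩
        · rintro ⟨h6, h7, h8⟩
          exact ⟨Or.inr ⟨h6, h7⟩, h8⟩
      rw [h5, Finset.card_erase_of_mem (mem_sdiff.2 ha)]
      omega)
    refine ⟨σ * Equiv.swap a b, ?_, ?_⟩
    · intro x hx
      rw [Equiv.Perm.mul_apply]
      apply hσ1
      by_cases hxa : x = a
      · rw [hxa, Equiv.swap_apply_left]
        exact mem_insert_self _ _
      · have hxb : x ≠ b := fun h => hb.2 (h ▸ hx)
        rw [Equiv.swap_apply_of_ne_of_ne hxa hxb]
        exact mem_insert_of_mem (mem_erase.2 ⟨hxa, hx⟩)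
    · intro x hxA hxB
      have hxa : x ≠ a := fun h => hxA (h ▸ ha.1)
      have hxb : x ≠ b := fun h => hxB (h ▸ hb.1)
      rw [Equiv.Perm.mul_apply, Equiv.swap_apply_of_ne_of_ne hxa hxb]
      apply hσ2
      · rw [mem_insert, mem_erase]
        rintro (h | h)
        · exact hxb h
        · exact hxA h.2
      · exact hxB

section

variable {W : Type} [Fintype W] {G' : SimpleGraph W}

/-- numberings of the orbits -/
def Idx (G' : SimpleGraph W) (idx : W → ℕ) : Prop :=
  (∀ w, idx w < orb G' w) ∧ ∀ w w', T G' w w' → idx w = idx w' → w = w'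

omit [Fintype W] in
theorem Idx.lt {idx : W → ℕ} (hi : Idx G' idx) {u w : W} (h : T G' u w) : idx w < orb G' u := by
  rw [orb_eq G' u w h]
  exact hi.1 w

/-- each vertex is close to exactly `2 h` vertices -/
theorem card_close {idx : W → ℕ} (hi : Idx G' idx) {h : ℕ} (u : W) (hh : 2 * h < orb G' u) :
    (univ.filter fun w => T G' u w ∧ Close h (orb G' u) (idx u) (idx w)).card = 2 * h := by
  classical
  set n := orb G' u with hn
  have hu : idx u < n := hi.1 u
  have hcardC : (Ico 1 (h + 1) ∪ Ico (n - h) n).card = 2 * h := by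
    rw [Finset.card_union_of_disjoint, Nat.card_Ico, Nat.card_Ico]
    · omega
    · rw [Finset.disjoint_left]
      intro t h1 h2
      rw [Finset.mem_Ico] at h1 h2
      omega
  have hinj : ∀ w w', T G' u w → T G' u w' → df n (idx u) (idx w) = df n (idx u) (idx w') →
      w = w' := by
    intro w w' h1 h2 h3
    apply hi.2 w w' (h1.symm.trans h2)
    exact df_inj hu (hi.lt h1) (hi.lt h2) h3
  -- all differences occur
  have hsurj : ∀ t < n, ∃ w, T G' u w ∧ df n (idx u) (idx w) = t := by
    have h1 : (univ.filter fun w => T G' u w).image (fun w => df n (idx u) (idx w)) = range n := by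
      apply Finset.eq_of_subset_of_card_le
      · intro t ht
        rw [mem_image] at ht
        obtain ⟨w, -, rfl⟩ := ht
        exact mem_range.2 (df_lt hu)
      · rw [card_range, Finset.card_image_of_injOn]
        · rw [hn, card_orbit]
        · intro w hw w' hw' h2
          rw [mem_coe, mem_filter] at hw hw'
          exact hinj w w' hw.2 hw'.2 h2
    intro t ht
    have h2 : t ∈ (univ.filter fun w => T G' u w).image (fun w => df n (idx u) (idx w)) := by
      rw [h1]; exact mem_range.2 ht
    rw [mem_image] at h2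
    obtain ⟨w, hw, rfl⟩ := h2
    exact ⟨w, (mem_filter.1 hw).2, rfl⟩
  rw [← hcardC]
  have h2 : (univ.filter fun w => T G' u w ∧ Close h n (idx u) (idx w)).image
      (fun w => df n (idx u) (idx w)) = Ico 1 (h + 1) ∪ Ico (n - h) n := by
    ext t
    rw [mem_image, mem_union, Finset.mem_Ico, Finset.mem_Ico]
    constructor
    · rintro ⟨w, hw, rfl⟩
      rw [mem_filter] at hw
      have h3 := hw.2.2
      have h4 := df_lt (n := n) (i := idx u) (j := idx w) hu
      unfold Close at h3
      omega
    · intro ht
      obtain ⟨w, hw, rfl⟩ := hsurj t (by omega)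
      refine ⟨w, mem_filter.2 ⟨mem_univ _, hw, ?_⟩, rfl⟩
      unfold Close
      omega
  rw [← h2, Finset.card_image_of_injOn]
  intro w hw w' hw' h3
  rw [mem_coe, mem_filter] at hw hw'
  exact hinj w w' hw.2.1 hw'.2.1 h3

/-- a numbering for which the vertices close to `v` are neighbours of `v` -/
theorem exists_idx_at [DecidableRel G'.Adj] (v : W) {h : ℕ} (hh : 2 * h ≤ inn G' v) :
    ∃ idx : W → ℕ, Idx G' idx ∧
      ∀ w, T G' v w → Close h (orb G' v) (idx v) (idx w) → G'.Adj v w := by
  classical
  obtain ⟨idx, hidx1, hidx2⟩ := exists_idx G'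
  have hidx : Idx G' idx := ⟨hidx1, hidx2⟩
  have hlt : inn G' v < orb G' v := by
    rw [inn, ← card_orbit]
    apply Finset.card_lt_card
    refine ⟨fun w hw => ?_, fun h1 => ?_⟩
    · rw [mem_filter] at hw ⊢
      exact ⟨hw.1, hw.2.2⟩
    · have := h1 (mem_filter.2 ⟨mem_univ v, T.refl v⟩)
      rw [mem_filter] at this
      exact G'.loopless.irrefl _ this.2.1
  set B := univ.filter fun w => T G' v w ∧ Close h (orb G' v) (idx v) (idx w) with hB
  have hBc : B.card = 2 * h := card_close hidx v (by omega)
  obtain ⟨A, hA1, hA2⟩ := Finset.exists_subset_card_eq hh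
  obtain ⟨τ, hτ1, hτ2⟩ := exists_perm B A (by rw [hBc, hA2])
  have hvA : v ∉ A := by
    intro h1
    have := hA1 h1
    rw [mem_filter] at this
    exact G'.loopless.irrefl _ this.2.1
  have hvB : v ∉ B := by
    intro h1
    rw [hB, mem_filter] at h1
    exact (h1.2.2.ne (hidx1 v)) rfl
  have hAT : ∀ w ∈ A, T G' v w := fun w hw => (mem_filter.1 (hA1 hw)).2.2
  have hBT : ∀ w ∈ B, T G' v w := fun w hw => (mem_filter.1 hw).2.1
  have hτT : ∀ w, T G' w (τ w) := by
    intro w
    by_cases hw : w ∈ A ∨ w ∈ B
    · have h1 : T G' v w := by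
        rcases hw with hw | hw
        · exact hAT w hw
        · exact hBT w hw
      have h2 : τ w ∈ A ∨ τ w ∈ B := by
        by_contra h3
        push Not at h3
        have h4 := hτ2 (τ w) h3.2 h3.1
        have h5 := τ.injective h4
        rw [h5] at h3
        rcases hw with hw | hw
        · exact h3.1 hw
        · exact h3.2 hw
      have h3 : T G' v (τ w) := by
        rcases h2 with h2 | h2
        · exact hAT _ h2
        · exact hBT _ h2
      exact h1.symm.trans h3
    · push Not at hw
      rw [hτ2 w hw.2 hw.1]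
      exact T.refl w
  have hσT : ∀ w, T G' w (τ.symm w) := by
    intro w
    have := hτT (τ.symm w)
    rw [Equiv.apply_symm_apply] at this
    exact this.symm
  have hσv : τ.symm v = v := by
    rw [Equiv.symm_apply_eq]
    exact (hτ2 v hvB hvA).symm
  refine ⟨fun w => idx (τ.symm w), ⟨?_, ?_⟩, ?_⟩
  · intro w
    rw [orb_T (hσT w)]
    exact hidx1 _
  · intro w w' h1 h2
    apply τ.symm.injective
    apply hidx2 _ _ _ h2
    exact ((hσT w).symm.trans h1).trans (hσT w')
  · intro w h1 h2
    simp only [hσv] at h2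
    have h3 : τ.symm w ∈ B := mem_filter.2 ⟨mem_univ _, h1.trans (hσT w), h2⟩
    have h4 := hτ1 _ h3
    rw [Equiv.apply_symm_apply] at h4
    exact (mem_filter.1 (hA1 h4)).2.1

end

end Pool.Agent.U741.WR
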