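import Pool.Agent.U741.WR.Crit
import Pool.Agent.U741.WR.Circ

set_option autoImplicit false

/-!
# The colouring of the multigraph

`zM` are the multiplicities of the multigraph whose edges are those of `G'` and an edge between any
two vertices of the same orbit which are not close. If the degrees of the circulant graphs are even
and just below the inner degree of a vertex `v` in a smallest orbit then this multigraph has an edge
colouring with one colour more than the maximum degree: `v` is incident with at most one double edge,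
hence it is not in a critical subgraph, and so are the vertices of its orbit, then those of the
orbits joined to it, and so on.
-/

namespace Pool.Agent.U741.WR

open Finset Pool.Agent.MPd14d18 Pool.Agent.X76.Wr Pool.Agent.K7.H15.WR

variable {W : Type} [Fintype W] [DecidableEq W] {G' : SimpleGraph W} [DecidableRel G'.Adj]

/-- connected through orbits and edges -/
def Cn (G' : SimpleGraph W) (u w : W) : Prop :=
  Relation.ReflTransGen (fun a b => T G' a b ∨ G'.Adj a b) u w

omit [Fintype W] [DecidableEq W] [DecidableRel G'.Adj] in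
theorem Cn.refl (u : W) : Cn G' u u := Relation.ReflTransGen.refl

omit [Fintype W] [DecidableEq W] [DecidableRel G'.Adj] in
theorem Cn.symm {u w : W} (h : Cn G' u w) : Cn G' w u := by
  induction h with
  | refl => exact Relation.ReflTransGen.refl
  | tail _ hab ih =>
    refine Relation.ReflTransGen.head ?_ ih
    rcases hab with h | h
    · exact Or.inl h.symm
    · exact Or.inr h.symm

omit [Fintype W] [DecidableEq W] [DecidableRel G'.Adj] in
theorem Cn.trans {u v w : W} (h : Cn G' u v) (h' : Cn G' v w) : Cn G' u w :=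
  Relation.ReflTransGen.trans h h'

omit [Fintype W] [DecidableEq W] [DecidableRel G'.Adj] in
theorem Cn.ofT {u w : W} (h : T G' u w) : Cn G' u w := Relation.ReflTransGen.single (Or.inl h)

omit [Fintype W] [DecidableEq W] [DecidableRel G'.Adj] in
theorem Cn.ofAdj {u w : W} (h : G'.Adj u w) : Cn G' u w := Relation.ReflTransGen.single (Or.inr h)

noncomputable instance : DecidableRel (Cn G') := fun _ _ => Classical.propDecidable _

variable (G') in
/-- the multiplicities -/
noncomputable def zM (v : W) (idx : W → ℕ) (h : ℕ) (u w : W) : ℕ :=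
  if Cn G' v u then (if G'.Adj u w then 1 else 0) +
    (if T G' u w ∧ u ≠ w ∧ ¬ Close h (orb G' u) (idx u) (idx w) then 1 else 0) else 0

omit [Fintype W] in
theorem zM_pos {v : W} {idx : W → ℕ} {h : ℕ} {u w : W} (hz : 0 < zM G' v idx h u w) :
    Cn G' v u ∧ Cn G' v w := by
  unfold zM at hz
  by_cases hu : Cn G' v u
  · refine ⟨hu, ?_⟩
    rw [if_pos hu] at hz
    by_cases h1 : G'.Adj u w
    · exact hu.trans (Cn.ofAdj h1)
    · rw [if_neg h1, zero_add] at hz
      split_ifs at hz with h2
      · exact hu.trans (Cn.ofT h2.1)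
      · omega
  · rw [if_neg hu] at hz
    omega

omit [Fintype W] in
theorem zM_symm {v : W} {idx : W → ℕ} (hi : Idx G' idx) {h : ℕ} (u w : W) :
    zM G' v idx h u w = zM G' v idx h w u := by
  by_cases hr : T G' u w ∨ G'.Adj u w
  · have hc : Cn G' v u ↔ Cn G' v w := by
      have h1 : Cn G' u w := by
        rcases hr with hr | hr
        · exact Cn.ofT hr
        · exact Cn.ofAdj hr
      exact ⟨fun h2 => h2.trans h1, fun h2 => h2.trans h1.symm⟩
    unfold zM
    have h2 : (T G' u w ∧ u ≠ w ∧ ¬ Close h (orb G' u) (idx u) (idx w)) ↔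
        (T G' w u ∧ w ≠ u ∧ ¬ Close h (orb G' w) (idx w) (idx u)) := by
      constructor
      · rintro ⟨h3, h4, h5⟩
        refine ⟨h3.symm, h4.symm, fun h6 => h5 ?_⟩
        rw [orb_eq G' u w h3]
        exact h6.symm (hi.1 w) (by rw [← orb_eq G' u w h3]; exact hi.1 u)
      · rintro ⟨h3, h4, h5⟩
        refine ⟨h3.symm, h4.symm, fun h6 => h5 ?_⟩
        rw [orb_eq G' w u h3]
        exact h6.symm (hi.1 u) (by rw [← orb_eq G' w u h3]; exact hi.1 w)
    simp only [hc, h2, G'.adj_comm u w]
  · push Not at hr
    have h3 : ¬ T G' w u := fun h => hr.1 h.symm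
    have h4 : ¬ G'.Adj w u := fun h => hr.2 h.symm
    unfold zM
    simp [hr.1, hr.2, h3, h4]

omit [Fintype W] in
theorem zM_two {v : W} {idx : W → ℕ} {h : ℕ} {u w : W} (hz : zM G' v idx h u w = 2) :
    Cn G' v u ∧ G'.Adj u w ∧ T G' u w ∧ ¬ Close h (orb G' u) (idx u) (idx w) := by
  unfold zM at hz
  split_ifs at hz with h1 h2 h3 h3
  · exact ⟨h1, h2, h3.1, h3.2.2⟩
  · omega
  · omega
  · omega

/-- the degrees -/
theorem sum_zM {v : W} {idx : W → ℕ} (hi : Idx G' idx) {h : ℕ} (u : W) (hh : 2 * h < orb G' u) :
    (∑ w ∈ univ.erase u, zM G' v idx h u w) + 1 + 2 * h ≤ G'.degree u + orb G' u := by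
  by_cases hu : Cn G' v u
  · have h1 : ∑ w ∈ univ.erase u, zM G' v idx h u w =
        (∑ w ∈ univ.erase u, if G'.Adj u w then 1 else 0) +
        ∑ w ∈ univ.erase u,
          if T G' u w ∧ u ≠ w ∧ ¬ Close h (orb G' u) (idx u) (idx w) then 1 else 0 := by
      rw [← Finset.sum_add_distrib]
      refine Finset.sum_congr rfl fun w _ => ?_
      rw [zM, if_pos hu]
    rw [h1, ← Finset.card_filter, ← Finset.card_filter]
    have h2 : ((univ.erase u).filter fun w => G'.Adj u w).card ≤ G'.degree u := by
      rw [← SimpleGraph.card_neighborFinset_eq_degree]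
      apply Finset.card_le_card
      intro w hw
      rw [SimpleGraph.mem_neighborFinset]
      exact (mem_filter.1 hw).2
    have h3 := card_close hi u hh
    have h8 := card_orbit (G' := G') u
    have h4 : (univ.filter fun w => T G' u w) =
        insert u ((univ.filter fun w => T G' u w ∧ Close h (orb G' u) (idx u) (idx w)) ∪
        ((univ.erase u).filter fun w =>
          T G' u w ∧ u ≠ w ∧ ¬ Close h (orb G' u) (idx u) (idx w))) := by
      ext w
      simp only [mem_filter, mem_univ, true_and, mem_insert, mem_union, mem_erase, and_true]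
      constructor
      · intro h5
        by_cases h6 : w = u
        · exact Or.inl h6
        · by_cases h7 : Close h (orb G' u) (idx u) (idx w)
          · exact Or.inr (Or.inl ⟨h5, h7⟩)
          · exact Or.inr (Or.inr ⟨h6, h5, Ne.symm h6, h7⟩)
      · rintro (rfl | h5 | h5)
        · exact T.refl w
        · exact h5.1
        · exact h5.2.1
    have h5 : u ∉ (univ.filter fun w => T G' u w ∧ Close h (orb G' u) (idx u) (idx w)) ∪
        ((univ.erase u).filter fun w =>
          T G' u w ∧ u ≠ w ∧ ¬ Close h (orb G' u) (idx u) (idx w)) := by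
      rw [mem_union, mem_filter, mem_filter]
      rintro (h6 | h6)
      · exact h6.2.2.ne (hi.1 u) rfl
      · exact h6.2.2.1 rfl
    have h6 : Disjoint (univ.filter fun w => T G' u w ∧ Close h (orb G' u) (idx u) (idx w))
        ((univ.erase u).filter fun w =>
          T G' u w ∧ u ≠ w ∧ ¬ Close h (orb G' u) (idx u) (idx w)) := by
      rw [Finset.disjoint_left]
      intro w h7 h8
      rw [mem_filter] at h7 h8
      exact h8.2.2.2 h7.2.2
    have h7 := congrArg Finset.card h4
    rw [Finset.card_insert_of_notMem h5, Finset.card_union_of_disjoint h6, h3] at h7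
    omega
  · rw [Finset.sum_eq_zero (fun w _ => by rw [zM, if_neg hu])]
    omega

/-- **The colouring of the multigraph.** -/
theorem exists_col {D h : ℕ} (hD : ∀ u, orb G' u + G'.degree u ≤ D) {v : W} {idx : W → ℕ}
    (hi : Idx G' idx) (hv : ∀ w, T G' v w → Close h (orb G' v) (idx v) (idx w) → G'.Adj v w)
    (hin : inn G' v ≤ 2 * h + 1) (hh : ∀ u, Cn G' v u → 2 * h < orb G' u) :
    ∃ m, Ok (range (D - 2 * h)) (zM G' v idx h) m := by
  classical
  by_contra hno
  have hz0 : ∀ x, zM G' v idx h x x = 0 := by
    intro x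
    unfold zM
    simp
  have hz2 : ∀ x y, zM G' v idx h x y ≤ 2 := by
    intro x y
    unfold zM
    split_ifs <;> omega
  have hvv := hh v (Cn.refl v)
  have hdeg : ∀ u, (∑ w ∈ univ.erase u, zM G' v idx h u w) + 1 ≤ (range (D - 2 * h)).card := by
    intro u
    rw [card_range]
    by_cases hu : Cn G' v u
    · have h1 := sum_zM (v := v) hi u (hh u hu)
      have h2 := hD u
      omega
    · rw [Finset.sum_eq_zero (fun w _ => by rw [zM, if_neg hu])]
      have := hD v
      omega
  obtain ⟨S, ⟨x0, hx0⟩, hS⟩ := crit _ _ (zM_symm hi) hz0 hz2 hdeg hno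
  -- `v` is not in `S`
  have hvS : v ∉ S := by
    intro h1
    obtain ⟨y1, y2, hne, ⟨h2, -, -⟩, ⟨h3, -, -⟩⟩ := hS v h1
    obtain ⟨-, a1, b1, c1⟩ := zM_two h2
    obtain ⟨-, a2, b2, c2⟩ := zM_two h3
    have h4 := card_close hi v hvv
    have h5 : insert y1 (insert y2
        (univ.filter fun w => T G' v w ∧ Close h (orb G' v) (idx v) (idx w))) ⊆
        univ.filter fun w => G'.Adj v w ∧ T G' v w := by
      intro w hw
      rw [mem_insert, mem_insert, mem_filter] at hw
      rw [mem_filter]
      rcases hw with rfl | rfl | ⟨-, h6, h7⟩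
      · exact ⟨mem_univ _, a1, b1⟩
      · exact ⟨mem_univ _, a2, b2⟩
      · exact ⟨mem_univ _, hv w h6 h7, h6⟩
    have h6 := Finset.card_le_card h5
    rw [Finset.card_insert_of_notMem, Finset.card_insert_of_notMem, h4] at h6
    · have h7 : (univ.filter fun w => G'.Adj v w ∧ T G' v w).card = inn G' v := rfl
      omega
    · rw [mem_filter]
      exact fun h8 => c2 h8.2.2
    · rw [mem_insert, mem_filter]
      rintro (h8 | h8)
      · exact hne h8
      · exact c1 h8.2.2
  -- the orbit of `v`
  have hstart : ∀ u, T G' v u → u ∉ S := by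
    intro u hu hS1
    obtain ⟨y, -, -, ⟨h2, hyS, hfull⟩, -⟩ := hS u hS1
    obtain ⟨-, -, b1, -⟩ := zM_two h2
    have hTy : T G' v y := hu.trans b1
    have hyv : y ≠ v := fun h3 => hvS (h3 ▸ hyS)
    apply hvS
    apply hfull
    rw [zM_symm hi]
    unfold zM
    rw [if_pos (Cn.refl v)]
    by_cases h4 : Close h (orb G' v) (idx v) (idx y)
    · rw [if_pos (hv y hTy h4)]
      omega
    · rw [if_pos (⟨hTy, hyv.symm, h4⟩ : T G' v y ∧ v ≠ y ∧ _)]
      omega
  -- the other orbits
  have hall : ∀ u, Cn G' v u → ∀ u', T G' u u' → u' ∉ S := by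
    intro u hu
    induction hu with
    | refl => exact hstart
    | @tail a b hva hab ih =>
      intro b' hb' hS1
      by_cases hT : T G' a b
      · exact ih b' (hT.trans hb') hS1
      · have hadj : G'.Adj a b := by
          rcases hab with h1 | h1
          · exact absurd h1 hT
          · exact h1
        obtain ⟨y, -, -, ⟨h2, hyS, hfull⟩, -⟩ := hS b' hS1
        obtain ⟨-, -, b1, -⟩ := zM_two h2
        obtain ⟨φ, hφ⟩ := hb'.trans b1
        have h3 : G'.Adj y (φ a) := by
          rw [← hφ]
          exact T.adj φ hadj.symm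
        apply ih (φ a) (T.iso φ a)
        apply hfull
        have h4 : Cn G' v y := by
          have h5 : Cn G' v b := Relation.ReflTransGen.tail hva hab
          exact h5.trans (Cn.ofT ⟨φ, hφ⟩)
        unfold zM
        rw [if_pos h4, if_pos h3]
        omega
  obtain ⟨y, -, -, ⟨h2, -, -⟩, -⟩ := hS x0 hx0
  exact hall x0 (zM_two h2).1 x0 (T.refl x0) hx0

end Pool.Agent.U741.WR
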