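import Pool.Agent.K7.H15.WR.Ext

set_option autoImplicit false

/-!
# Critical multigraphs with multiplicities at most two

If a multigraph with multiplicities at most two and maximum degree less than the number `k` of
colours has no edge colouring with `k` colours, then it contains a subgraph in which each vertex `x`
is joined by double edges to at least two vertices which have degree `k - 1` in the subgraph.
-/

namespace Pool.Agent.U741.WR

open Finset Pool.Agent.MPd14d18 Pool.Agent.K7.H15.WR

variable {W : Type*} [Fintype W] [DecidableEq W]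

/-- one edge less between `x` and `y` -/
def delE (z : W → W → ℕ) (x y : W) : W → W → ℕ :=
  fun u w => z u w - if (u = x ∧ w = y) ∨ (u = y ∧ w = x) then 1 else 0

omit [Fintype W] in
theorem add_del {z : W → W → ℕ} (hs : ∀ x y, z x y = z y x) {x y : W} (hxy : 0 < z x y) :
    addE (delE z x y) x y = z := by
  funext u w
  unfold addE delE
  split_ifs with h
  · rcases h with ⟨rfl, rfl⟩ | ⟨rfl, rfl⟩
    · omega
    · have := hs u w
      omega
  · omega

/-- **Critical multigraphs.** -/
theorem crit (L : Finset ℕ) (z : W → W → ℕ) (hs : ∀ x y, z x y = z y x) (hz0 : ∀ x, z x x = 0)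
    (hz2 : ∀ x y, z x y ≤ 2) (hd : ∀ u, (∑ w ∈ univ.erase u, z u w) + 1 ≤ L.card)
    (hno : ¬ ∃ m, Ok L z m) :
    ∃ S : Set W, S.Nonempty ∧ ∀ x ∈ S, ∃ y1 y2, y1 ≠ y2 ∧
      (z x y1 = 2 ∧ y1 ∈ S ∧ ∀ w, 0 < z y1 w → w ∈ S) ∧
      (z x y2 = 2 ∧ y2 ∈ S ∧ ∀ w, 0 < z y2 w → w ∈ S) := by
  classical
  have hex : ∃ n, ∃ z' : W → W → ℕ, (∀ x y, z' x y = z' y x) ∧ (∀ x y, z' x y ≤ z x y) ∧
      (¬ ∃ m, Ok L z' m) ∧ ∑ x, ∑ y, z' x y = n := ⟨_, z, hs, fun _ _ => le_rfl, hno, rfl⟩
  obtain ⟨z', hs', hle, hno', hn⟩ := Nat.find_spec hex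
  have hmin : ∀ z'' : W → W → ℕ, (∀ x y, z'' x y = z'' y x) → (∀ x y, z'' x y ≤ z' x y) →
      ∑ x, ∑ y, z'' x y < ∑ x, ∑ y, z' x y → ∃ m, Ok L z'' m := by
    intro z'' h1 h2 h3
    by_contra h4
    have h5 := Nat.find_min' hex ⟨z'', h1, fun x y => (h2 x y).trans (hle x y), h4, rfl⟩
    rw [← hn] at h5
    omega
  have hz0' : ∀ x, z' x x = 0 := fun x => Nat.le_zero.1 ((hle x x).trans (hz0 x).le)
  refine ⟨{x | ∃ y, 0 < z' x y}, ?_, ?_⟩
  · -- the subgraph is not empty
    rw [Set.nonempty_iff_ne_empty]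
    intro he
    apply hno'
    refine ⟨fun _ v => v, fun _ _ => rfl, ?_⟩
    intro u w huw
    rw [mu_eq_card, Finset.card_eq_zero.2]
    · by_contra h
      have : u ∈ {x | ∃ y, 0 < z' x y} := ⟨w, Nat.pos_of_ne_zero (Ne.symm h)⟩
      rw [he] at this
      exact this
    · rw [Finset.filter_eq_empty_iff]
      intro _ _ h
      exact huw h
  rintro x ⟨y, hxy⟩
  have hne : x ≠ y := by
    rintro rfl
    rw [hz0'] at hxy
    omega
  -- remove one edge
  have hs'' : ∀ u w, delE z' x y u w = delE z' x y w u := by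
    intro u w
    unfold delE
    rw [hs' u w]
    congr 1
    by_cases h1 : (u = x ∧ w = y) ∨ (u = y ∧ w = x)
    · rw [if_pos h1, if_pos (by tauto)]
    · rw [if_neg h1, if_neg (by tauto)]
  have hle'' : ∀ u w, delE z' x y u w ≤ z' u w := fun u w => Nat.sub_le _ _
  obtain ⟨m, hm⟩ := hmin (delE z' x y) hs'' hle'' (by
    apply Finset.sum_lt_sum
    · intro u _
      exact Finset.sum_le_sum fun w _ => hle'' u w
    · refine ⟨x, mem_univ _, ?_⟩
      apply Finset.sum_lt_sum
      · intro w _
        exact hle'' x w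
      · refine ⟨y, mem_univ _, ?_⟩
        unfold delE
        rw [if_pos (Or.inl ⟨rfl, rfl⟩)]
        omega)
  have hNE : NE L (delE z' x y) x y := by
    rcases ext_or (L := L) (z := delE z' x y) hne with ⟨m', hm'⟩ | h
    · rw [add_del hs' hxy] at hm'
      exact absurd ⟨m', hm'⟩ hno'
    · exact h
  -- degrees
  have hdeg : ∀ u, (∑ w ∈ univ.erase u, delE z' x y u w) +
      (if u = x ∨ u = y then 1 else 0) = ∑ w ∈ univ.erase u, z' u w := by
    have key : ∀ a b, a ≠ b → 0 < z' a b →
        (∀ w, delE z' x y a w = z' a w - if w = b then 1 else 0) →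
        (∑ w ∈ univ.erase a, delE z' x y a w) + 1 = ∑ w ∈ univ.erase a, z' a w := by
      intro a b hab hpos hdel
      have hb : b ∈ univ.erase a := mem_erase.2 ⟨hab.symm, mem_univ _⟩
      rw [← Finset.add_sum_erase _ (fun w => z' a w) hb,
        ← Finset.add_sum_erase _ (fun w => delE z' x y a w) hb]
      have h1 : ∑ w ∈ (univ.erase a).erase b, delE z' x y a w =
          ∑ w ∈ (univ.erase a).erase b, z' a w := by
        refine Finset.sum_congr rfl fun w hw => ?_
        rw [hdel w, if_neg (Finset.ne_of_mem_erase hw), Nat.sub_zero]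
      rw [h1, hdel b, if_pos rfl]
      omega
    intro u
    by_cases hux : u = x
    · subst hux
      rw [if_pos (Or.inl rfl)]
      apply key u y hne hxy
      intro w
      unfold delE
      congr 1
      by_cases h : w = y
      · rw [if_pos h, if_pos (Or.inl ⟨rfl, h⟩)]
      · rw [if_neg h, if_neg (by rintro (⟨-, h1⟩ | ⟨h1, -⟩); exact h h1; exact hne h1)]
    · by_cases huy : u = y
      · subst huy
        rw [if_pos (Or.inr rfl)]
        apply key u x (Ne.symm hne) (by rw [hs']; exact hxy)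
        intro w
        unfold delE
        congr 1
        by_cases h : w = x
        · rw [if_pos h, if_pos (Or.inr ⟨rfl, h⟩)]
        · rw [if_neg h, if_neg (by rintro (⟨h1, -⟩ | ⟨-, h1⟩); exact hne h1.symm; exact h h1)]
      · rw [if_neg (by tauto), add_zero]
        refine Finset.sum_congr rfl fun w _ => ?_
        unfold delE
        rw [if_neg (by tauto), Nat.sub_zero]
  have hd' : ∀ u, (∑ w ∈ univ.erase u, z' u w) + 1 ≤ L.card := by
    intro u
    have := Finset.sum_le_sum (s := univ.erase u) fun w _ => hle u w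
    have := hd u
    omega
  obtain ⟨R, -, hyR, hR⟩ := count hNE hm
    (by have := hdeg x; have := hd' x; rw [if_pos (Or.inl rfl)] at *; omega)
    (by have := hdeg y; have := hd' y; rw [if_pos (Or.inr rfl)] at *; omega)
  have h1 := hR x (Or.inl rfl)
  have hyR' : y ∈ R.erase x := mem_erase.2 ⟨Ne.symm hne, hyR⟩
  -- the inequality for the subgraph
  have h2 : (∑ w ∈ R.erase x, (L.card - ∑ v ∈ univ.erase w, z' w v)) + 2 ≤
      ∑ w ∈ R.erase x, z' x w := by
    have h3 : ∑ w ∈ R.erase x, delE z' x y x w + 1 = ∑ w ∈ R.erase x, z' x w := by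
      rw [← Finset.add_sum_erase _ (fun w => z' x w) hyR',
        ← Finset.add_sum_erase _ (fun w => delE z' x y x w) hyR']
      have h4 : ∑ w ∈ (R.erase x).erase y, delE z' x y x w =
          ∑ w ∈ (R.erase x).erase y, z' x w := by
        refine Finset.sum_congr rfl fun w hw => ?_
        have hwy := Finset.ne_of_mem_erase hw
        unfold delE
        rw [if_neg (by rintro (⟨-, h⟩ | ⟨h, -⟩); exact hwy h; exact hne h), Nat.sub_zero]
      rw [h4]
      unfold delE
      rw [if_pos (Or.inl ⟨rfl, rfl⟩)]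
      omega
    have h5 : ∑ w ∈ R.erase x, (L.card - ∑ v ∈ univ.erase w, delE z' x y w v) =
        (∑ w ∈ R.erase x, (L.card - ∑ v ∈ univ.erase w, z' w v)) + 1 := by
      rw [← Finset.add_sum_erase _ (fun w => L.card - ∑ v ∈ univ.erase w, delE z' x y w v) hyR',
        ← Finset.add_sum_erase _ (fun w => L.card - ∑ v ∈ univ.erase w, z' w v) hyR']
      have h4 : ∑ w ∈ (R.erase x).erase y, (L.card - ∑ v ∈ univ.erase w, delE z' x y w v) =
          ∑ w ∈ (R.erase x).erase y, (L.card - ∑ v ∈ univ.erase w, z' w v) := by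
        refine Finset.sum_congr rfl fun w hw => ?_
        have hwy := Finset.ne_of_mem_erase hw
        have hwx := Finset.ne_of_mem_erase (Finset.mem_of_mem_erase hw)
        have := hdeg w
        rw [if_neg (by tauto), add_zero] at this
        rw [this]
      rw [h4]
      have := hdeg y
      rw [if_pos (Or.inr rfl)] at this
      have := hd' y
      omega
    rw [h5] at h1
    omega
  -- two vertices
  set B := (R.erase x).filter fun w => L.card - ∑ v ∈ univ.erase w, z' w v < z' x w with hB
  have hg1 : ∀ w, 1 ≤ L.card - ∑ v ∈ univ.erase w, z' w v := by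
    intro w
    have := hd' w
    omega
  have hf2 : ∀ w, z' x w ≤ 2 := fun w => (hle x w).trans (hz2 x w)
  have hBcard : 2 ≤ B.card := by
    have h3 : ∑ w ∈ R.erase x, z' x w ≤ ∑ w ∈ R.erase x,
        ((L.card - ∑ v ∈ univ.erase w, z' w v) +
          if L.card - ∑ v ∈ univ.erase w, z' w v < z' x w then 1 else 0) := by
      refine Finset.sum_le_sum fun w _ => ?_
      have := hg1 w
      have := hf2 w
      split_ifs <;> omega
    rw [Finset.sum_add_distrib] at h3
    rw [hB, Finset.card_filter]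
    omega
  have hBmem : ∀ w ∈ B, z x w = 2 ∧ w ∈ {x | ∃ y, 0 < z' x y} ∧
      ∀ v, 0 < z w v → v ∈ {x | ∃ y, 0 < z' x y} := by
    intro w hw
    rw [hB, mem_filter] at hw
    have h3 := hg1 w
    have h4 := hf2 w
    have h5 : z' x w = 2 := by omega
    have h6 := hle x w
    have h7 := hz2 x w
    refine ⟨by omega, ⟨x, by rw [hs' w x]; omega⟩, ?_⟩
    intro v hv
    have hwv : v ∈ univ.erase w := by
      rw [mem_erase]
      refine ⟨?_, mem_univ _⟩
      rintro rfl
      rw [hz0] at hv
      omega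
    have h8 := hd w
    by_contra h9
    have h10 : z' w v = 0 := by
      by_contra h11
      exact h9 ⟨w, by rw [hs' v w]; omega⟩
    have h12 : ∑ u ∈ univ.erase w, z' w u < ∑ u ∈ univ.erase w, z w u := by
      apply Finset.sum_lt_sum (fun u _ => hle w u)
      exact ⟨v, hwv, by omega⟩
    omega
  obtain ⟨y1, hy1, y2, hy2, hy12⟩ := Finset.one_lt_card.1 hBcard
  exact ⟨y1, y2, hy12, hBmem y1 hy1, hBmem y2 hy2⟩

end Pool.Agent.U741.WR
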