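import Pool.Agent.U741.WR.Class

set_option autoImplicit false

/-!
# Edge colourings of wreath products of graphs of maximum degree one

The colouring of the multigraph gives a colouring of the wreath product without the edges between
close vertices of different fibres. These form regular bipartite circulant graphs, which are coloured
with the remaining colours.
-/

namespace Pool.Agent.U741.WR

open Finset Pool.Agent.MPd14d18 Pool.Agent.X76.Wr Pool.Agent.K7.H15.WR

variable {V W : Type} [Fintype V] [Fintype W] [DecidableEq W] {G : SimpleGraph V}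
  {G' : SimpleGraph W} [DecidableRel G'.Adj]

theorem df_inj' {n i j k : ℕ} (hi : i < n) (hj : j < n) (hk : k < n) (h : df n j i = df n k i) :
    j = k := by
  rw [df_eq hj hi, df_eq hk hi] at h
  split_ifs at h <;> omega

/-- the rank of a difference -/
def rk (h n t : ℕ) : ℕ := if t ≤ h then t - 1 else t + 2 * h - n

theorem rk_lt {h n i j : ℕ} (hh : 2 * h < n) (hi : i < n) (hc : Close h n i j) :
    rk h n (df n i j) < 2 * h := by
  have := df_lt (n := n) (i := i) (j := j) hi
  unfold Close at hc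
  unfold rk
  split_ifs <;> omega

theorem rk_inj {h n i j i' j' : ℕ} (hh : 2 * h < n) (hi : i < n) (hi' : i' < n)
    (hc : Close h n i j) (hc' : Close h n i' j')
    (he : rk h n (df n i j) = rk h n (df n i' j')) : df n i j = df n i' j' := by
  have := df_lt (n := n) (i := i) (j := j) hi
  have := df_lt (n := n) (i := i') (j := j') hi'
  unfold Close at hc hc'
  unfold rk at he
  split_ifs at he <;> omega

/-- the lift -/
theorem lift_one {D h : ℕ} (hG : EC 1 G) {v : W} {idx : W → ℕ} (hi : Idx G' idx)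
    (hh : ∀ u, Cn G' v u → 2 * h < orb G' u) (hhD : 2 * h < D)
    (hdeg : ∀ u, (∑ w ∈ univ.erase u, zM G' v idx h u w) + 1 ≤ (range (D - 2 * h)).card)
    {m : ℕ → W → W} (hm : Ok (range (D - 2 * h)) (zM G' v idx h) m) :
    ∃ c : V × W → V × W → ℕ, ∀ p, Cn G' v p.2 → GoodAt D (wreath G G') c p := by
  classical
  obtain ⟨cG, hcG⟩ := hG
  have hone : ∀ x y y', G.Adj x y → G.Adj x y' → y = y' := by
    intro x y y' h1 h2
    by_contra h3
    have h4 := (hcG x y h1).2.2 y' h2 h3
    have h5 := (hcG x y h1).2.1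
    have h6 := (hcG x y' h2).2.1
    omega
  obtain ⟨e, he⟩ := exists_enum
  let eV : V → ℕ := fun x => (Fintype.equivFin V x).val
  have heV : Function.Injective eV := fun a b h => (Fintype.equivFin V).injective (Fin.ext h)
  let C : W → W → Finset ℕ := fun u w => (range (D - 2 * h)).filter fun c => m c u = w
  have hCC : ∀ u w, C u w = C w u := by
    intro u w
    ext c
    simp only [C, mem_filter]
    constructor
    · rintro ⟨h1, h2⟩; exact ⟨h1, by rw [← h2, hm.1]⟩
    · rintro ⟨h1, h2⟩; exact ⟨h1, by rw [← h2, hm.1]⟩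
  have hC : ∀ u w, u ≠ w → (C u w).card = zM G' v idx h u w := by
    intro u w huw
    rw [← hm.2 u w huw, mu_eq_card]
  have hC0 : ∀ u, 1 ≤ (C u u).card := by
    intro u
    have h1 := missing_add (range (D - 2 * h)) m u
    have h2 : ∑ w ∈ univ.erase u, mu (range (D - 2 * h)) m u w =
        ∑ w ∈ univ.erase u, zM G' v idx h u w :=
      Finset.sum_congr rfl fun w hw => hm.2 u w (Finset.ne_of_mem_erase hw).symm
    rw [h2] at h1
    have h3 := hdeg u
    have h5 : (C u u).card = ((range (D - 2 * h)).filter (fun c => m c u = u)).card := rfl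
    omega
  -- close vertices
  let Cl : W → W → Prop := fun u w => Close h (orb G' u) (idx u) (idx w)
  have hCls : ∀ u w, T G' u w → (Cl u w ↔ Cl w u) := by
    intro u w hT
    simp only [Cl]
    have h1 := orb_eq G' u w hT
    have h2 := hi.1 u
    have h3 := hi.1 w
    constructor
    · intro h4
      rw [← h1]
      exact h4.symm h2 (by rw [h1]; exact h3)
    · intro h4
      rw [h1]
      exact h4.symm h3 (by rw [← h1]; exact h2)
  have hCl0 : ∀ u, ¬ Cl u u := fun u h1 => h1.ne (hi.1 u) rfl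
  -- the index of an edge
  let ix : V × W → V × W → ℕ := fun p r =>
    if p.1 = r.1 ∧ T G' p.2 r.2 ∧ ¬ Cl p.2 r.2 then 1 else 0
  let δ : V × W → V × W → ℕ := fun p r =>
    if eV p.1 < eV r.1 then df (orb G' p.2) (idx p.2) (idx r.2)
      else df (orb G' p.2) (idx r.2) (idx p.2)
  let c : V × W → V × W → ℕ := fun p r =>
    if p.1 ≠ r.1 ∧ Cl p.2 r.2 then D - 2 * h + rk h (orb G' p.2) (δ p r)
      else e (C p.2 r.2) (ix p r)
  -- edges of the two kinds
  have hfib : ∀ p r : V × W, (wreath G G').Adj p r → p.1 = r.1 → G'.Adj p.2 r.2 := by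
    rintro p r (h1 | h1) h2
    · exact h1.2
    · exact absurd h2 (G.ne_of_adj h1.1)
  have hcross : ∀ p r : V × W, (wreath G G').Adj p r → p.1 ≠ r.1 →
      G.Adj p.1 r.1 ∧ T G' p.2 r.2 := by
    rintro p r (h1 | h1) h2
    · exact absurd h1.1 h2
    · exact h1
  have hix : ∀ p r, Cn G' v p.2 → (wreath G G').Adj p r → ¬ (p.1 ≠ r.1 ∧ Cl p.2 r.2) →
      ix p r < (C p.2 r.2).card := by
    intro p r hp hpr hn
    by_cases h1 : p.1 = r.1
    · have h2 := hfib p r hpr h1
      have h3 := G'.ne_of_adj h2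
      rw [hC _ _ h3]
      simp only [ix, zM, if_pos hp, if_pos h2]
      by_cases h4 : T G' p.2 r.2 ∧ ¬ Cl p.2 r.2
      · rw [if_pos ⟨h1, h4⟩, if_pos ⟨h4.1, h3, h4.2⟩]
        omega
      · rw [if_neg (fun h5 => h4 h5.2)]
        omega
    · obtain ⟨-, h2⟩ := hcross p r hpr h1
      have h3 : ¬ Cl p.2 r.2 := fun h4 => hn ⟨h1, h4⟩
      simp only [ix]
      rw [if_neg (fun h5 => h1 h5.1)]
      by_cases h4 : p.2 = r.2
      · rw [← h4]
        exact hC0 _
      · rw [hC _ _ h4]
        unfold zM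
        rw [if_pos hp, if_pos (⟨h2, h4, h3⟩ : T G' p.2 r.2 ∧ p.2 ≠ r.2 ∧ _)]
        omega
  have hcm : ∀ p r, Cn G' v p.2 → (wreath G G').Adj p r → ¬ (p.1 ≠ r.1 ∧ Cl p.2 r.2) →
      c p r ∈ C p.2 r.2 := by
    intro p r hp hpr hn
    simp only [c, if_neg hn]
    exact (he _).1 _ (hix p r hp hpr hn)
  have hcl : ∀ p r, Cn G' v p.2 → (wreath G G').Adj p r → ¬ (p.1 ≠ r.1 ∧ Cl p.2 r.2) →
      c p r < D - 2 * h := by
    intro p r hp hpr hn
    exact mem_range.1 (mem_filter.1 (hcm p r hp hpr hn)).1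
  -- the circulant part
  have hδ : ∀ p r, Cn G' v p.2 → (wreath G G').Adj p r → p.1 ≠ r.1 ∧ Cl p.2 r.2 →
      c p r = D - 2 * h + rk h (orb G' p.2) (δ p r) ∧
      rk h (orb G' p.2) (δ p r) < 2 * h := by
    intro p r hp hpr hn
    refine ⟨by simp only [c, if_pos hn], ?_⟩
    obtain ⟨-, hT⟩ := hcross p r hpr hn.1
    have h1 := hh p.2 hp
    have h2 := hi.1 p.2
    have h3 := hi.lt hT
    simp only [δ]
    split_ifs with h4
    · exact rk_lt h1 h2 hn.2
    · exact rk_lt h1 h3 (hn.2.symm h2 h3)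
  refine ⟨c, fun p hp r hpr => ⟨?_, ?_, ?_⟩⟩
  · -- symmetry
    by_cases hn : p.1 ≠ r.1 ∧ Cl p.2 r.2
    · obtain ⟨-, hT⟩ := hcross p r hpr hn.1
      have hn' : r.1 ≠ p.1 ∧ Cl r.2 p.2 := ⟨hn.1.symm, (hCls _ _ hT).1 hn.2⟩
      simp only [c, if_pos hn, if_pos hn']
      have h1 : δ p r = δ r p := by
        have h2 : eV p.1 ≠ eV r.1 := fun h3 => hn.1 (heV h3)
        simp only [δ, ← orb_eq G' p.2 r.2 hT]
        by_cases h4 : eV p.1 < eV r.1
        · rw [if_pos h4, if_neg (by omega)]
        · rw [if_neg h4, if_pos (by omega)]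
      rw [h1, ← orb_eq G' p.2 r.2 hT]
    · have hn' : ¬ (r.1 ≠ p.1 ∧ Cl r.2 p.2) := by
        rintro ⟨h1, h2⟩
        obtain ⟨-, hT⟩ := hcross p r hpr h1.symm
        exact hn ⟨h1.symm, (hCls _ _ hT).2 h2⟩
      simp only [c, if_neg hn, if_neg hn', hCC p.2 r.2]
      congr 1
      simp only [ix]
      by_cases h1 : p.1 = r.1 ∧ T G' p.2 r.2 ∧ ¬ Cl p.2 r.2
      · rw [if_pos h1, if_pos ⟨h1.1.symm, h1.2.1.symm, fun h2 => h1.2.2 ((hCls _ _ h1.2.1).2 h2)⟩]
      · rw [if_neg h1, if_neg]
        rintro ⟨h2, h3, h4⟩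
        exact h1 ⟨h2.symm, h3.symm, fun h5 => h4 ((hCls _ _ h3.symm).1 h5)⟩
  · -- range
    by_cases hn : p.1 ≠ r.1 ∧ Cl p.2 r.2
    · obtain ⟨h1, h2⟩ := hδ p r hp hpr hn
      omega
    · have := hcl p r hp hpr hn
      omega
  · -- properness
    intro s hps hrs heq
    by_cases hnr : p.1 ≠ r.1 ∧ Cl p.2 r.2
    · obtain ⟨h1, h2⟩ := hδ p r hp hpr hnr
      by_cases hns : p.1 ≠ s.1 ∧ Cl p.2 s.2
      · obtain ⟨h3, h4⟩ := hδ p s hp hps hns
        obtain ⟨g1, hTr⟩ := hcross p r hpr hnr.1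
        obtain ⟨g2, hTs⟩ := hcross p s hps hns.1
        have h5 := hone _ _ _ g1 g2
        have h6 : rk h (orb G' p.2) (δ p r) = rk h (orb G' p.2) (δ p s) := by omega
        have k1 := hi.1 p.2
        have k2 := hi.lt hTr
        have k3 := hi.lt hTs
        have k4 := hh p.2 hp
        have h7 : idx r.2 = idx s.2 := by
          simp only [δ, ← h5] at h6
          split_ifs at h6 with h8
          · exact df_inj k1 k2 k3 (rk_inj k4 k1 k1 hnr.2 hns.2 h6)
          · exact df_inj' k1 k2 k3 (rk_inj k4 k2 k3 (hnr.2.symm k1 k2) (hns.2.symm k1 k3) h6)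
        exact hrs (Prod.ext h5 (hi.2 _ _ (hTr.symm.trans hTs) h7))
      · have := hcl p s hp hps hns
        omega
    · by_cases hns : p.1 ≠ s.1 ∧ Cl p.2 s.2
      · obtain ⟨h3, h4⟩ := hδ p s hp hps hns
        have := hcl p r hp hpr hnr
        omega
      · have h1 := (mem_filter.1 (hcm p r hp hpr hnr)).2
        have h2 := (mem_filter.1 (hcm p s hp hps hns)).2
        rw [heq, h2] at h1
        -- the second coordinates are equal
        have h3 : ix p r = ix p s := by
          apply (he (C p.2 r.2)).2 _ (hix p r hp hpr hnr) _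
            (by rw [← h1]; exact hix p s hp hps hns)
          have h4 : c p r = c p s := heq
          simp only [c, if_neg hnr, if_neg hns, h1] at h4
          exact h4
        by_cases h4 : p.1 = r.1
        · by_cases h5 : p.1 = s.1
          · exact hrs (Prod.ext (h4.symm.trans h5) h1.symm)
          · obtain ⟨-, h6⟩ := hcross p s hps h5
            have h7 : ¬ Cl p.2 s.2 := fun h8 => hns ⟨h5, h8⟩
            simp only [ix] at h3
            rw [if_pos ⟨h4, by rw [← h1]; exact h6, by rw [← h1]; exact h7⟩,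
              if_neg (fun h8 => h5 h8.1)] at h3
            omega
        · obtain ⟨g1, h6⟩ := hcross p r hpr h4
          have h7 : ¬ Cl p.2 r.2 := fun h8 => hnr ⟨h4, h8⟩
          by_cases h5 : p.1 = s.1
          · simp only [ix] at h3
            rw [if_neg (fun h8 => h4 h8.1),
              if_pos ⟨h5, by rw [h1]; exact h6, by rw [h1]; exact h7⟩] at h3
            omega
          · obtain ⟨g2, -⟩ := hcross p s hps h5
            exact hrs (Prod.ext (hone _ _ _ g1 g2) h1.symm)

/-- the colouring of a class of orbits -/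
theorem class_EC {D : ℕ} (hG : EC 1 G) (hD : ∀ u, orb G' u + G'.degree u ≤ D) (w0 : W) :
    ∃ c : V × W → V × W → ℕ, ∀ p, Cn G' w0 p.2 → GoodAt D (wreath G G') c p := by
  classical
  -- a smallest orbit
  obtain ⟨v, hv1, hv2⟩ := Finset.exists_min_image (univ.filter fun u => Cn G' w0 u)
    (fun u => orb G' u) ⟨w0, mem_filter.2 ⟨mem_univ _, Cn.refl w0⟩⟩
  have hw0v : Cn G' w0 v := (mem_filter.1 hv1).2
  have hlt : inn G' v < orb G' v := by
    rw [inn, ← card_orbit]
    apply Finset.card_lt_card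
    refine ⟨fun w hw => ?_, fun h1 => ?_⟩
    · rw [mem_filter] at hw ⊢
      exact ⟨hw.1, hw.2.2⟩
    · have := h1 (mem_filter.2 ⟨mem_univ v, T.refl v⟩)
      rw [mem_filter] at this
      exact G'.loopless.irrefl _ this.2.1
  set h := inn G' v / 2 with hh
  have h1 : 2 * h ≤ inn G' v := by omega
  have h2 : inn G' v ≤ 2 * h + 1 := by omega
  obtain ⟨idx, hi, hvi⟩ := exists_idx_at v h1
  have h3 : ∀ u, Cn G' v u → 2 * h < orb G' u := by
    intro u hu
    have := hv2 u (mem_filter.2 ⟨mem_univ _, hw0v.trans hu⟩)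
    omega
  have h4 : 2 * h < D := by
    have := hD v
    omega
  obtain ⟨m, hm⟩ := exists_col hD hi hvi h2 h3
  have hdeg : ∀ u, (∑ w ∈ univ.erase u, zM G' v idx h u w) + 1 ≤ (range (D - 2 * h)).card := by
    intro u
    rw [card_range]
    by_cases hu : Cn G' v u
    · have h5 := sum_zM (v := v) hi u (h3 u hu)
      have h6 := hD u
      omega
    · rw [Finset.sum_eq_zero (fun w _ => by rw [zM, if_neg hu])]
      omega
  obtain ⟨c, hc⟩ := lift_one (V := V) (G := G) hG hi h3 h4 hdeg hm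
  exact ⟨c, fun p hp => hc p (hw0v.symm.trans hp)⟩

/-- **Edge colourings of wreath products of graphs of maximum degree one.** -/
theorem final_EC {D : ℕ} (hG : EC 1 G) (hD : ∀ u, orb G' u + G'.degree u ≤ D) :
    EC D (wreath G G') := by
  classical
  have hex := fun w0 : W => class_EC (V := V) (G := G) hG hD w0
  choose c hc using hex
  -- representatives of the classes
  obtain ⟨rep, hrep1, hrep2⟩ : ∃ rep : W → W, (∀ w, Cn G' (rep w) w) ∧
      ∀ w w', Cn G' w w' → rep w = rep w' := by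
    let st : Setoid W := ⟨Cn G', ⟨Cn.refl, fun h => h.symm, fun h h' => h.trans h'⟩⟩
    refine ⟨fun w => (Quotient.mk st w).out, fun w => ?_, fun w w' h => ?_⟩
    · exact Quotient.exact (Quotient.out_eq (Quotient.mk st w))
    · have h1 : Quotient.mk st w = Quotient.mk st w' := Quotient.sound h
      simp only [h1]
  refine ⟨fun p r => c (rep p.2) p r, ?_⟩
  intro p r hpr
  have h1 : Cn G' p.2 r.2 := by
    rcases hpr with ⟨-, h⟩ | ⟨-, h⟩
    · exact Cn.ofAdj h
    · exact Cn.ofT h
  obtain ⟨h2, h3, h4⟩ := hc (rep p.2) p (hrep1 _) r hpr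
  simp only [← hrep2 _ _ h1]
  exact ⟨h2, h3, h4⟩

end Pool.Agent.U741.WR
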